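import Pool.Agent.TH777.LC.Deg

set_option autoImplicit false

/-!
# Programs with divisions
-/

namespace Pool.Agent.TH777.LC

open Polynomial

/-- instructions: the variable, a constant, or an operation applied to earlier results -/
inductive Instr where
  | var : Instr
  | const (a : ℚ) : Instr
  | add (i j : ℕ) : Instr
  | sub (i j : ℕ) : Instr
  | mul (i j : ℕ) : Instr
  | div (i j : ℕ) : Instr

/-- `g k` is the result of the instruction number `k` in the field `F`, where the variable has the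
value `t` and `ι` embeds the constants; divisions by zero are not allowed. -/
def Step {F : Type} [Field F] (ι : ℚ → F) (t : F) (g : ℕ → F) (k : ℕ) : Instr → Prop
  | Instr.var => g k = t
  | Instr.const a => g k = ι a
  | Instr.add i j => i < k ∧ j < k ∧ g k = g i + g j
  | Instr.sub i j => i < k ∧ j < k ∧ g k = g i - g j
  | Instr.mul i j => i < k ∧ j < k ∧ g k = g i * g j
  | Instr.div i j => i < k ∧ j < k ∧ g j ≠ 0 ∧ g k = g i / g j

theorem val_prog {L : ℕ} {P : ℕ → Instr} {g : ℕ → RatFunc ℚ} {x : ℚ} {w : ℕ → ℚ}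
    (hg : ∀ k ≤ L, Step (fun a => RatFunc.C a) RatFunc.X g k (P k))
    (hw : ∀ k ≤ L, Step (fun a => a) x w k (P k)) : ∀ k ≤ L, Val x (g k) (w k) := by
  intro k
  induction k using Nat.strong_induction_on with
  | _ k ih =>
    intro hk
    have h1 := hg k hk
    have h2 := hw k hk
    cases hP : P k with
    | var =>
      rw [hP] at h1 h2
      simp only [Step] at h1 h2
      rw [h1, h2]
      exact Val.var x
    | const a =>
      rw [hP] at h1 h2
      simp only [Step] at h1 h2
      rw [h1, h2]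
      exact Val.const x a
    | add i j =>
      rw [hP] at h1 h2
      obtain ⟨hi, hj, h1⟩ := h1
      obtain ⟨_, _, h2⟩ := h2
      rw [h1, h2]
      exact (ih i hi (by omega)).add (ih j hj (by omega))
    | sub i j =>
      rw [hP] at h1 h2
      obtain ⟨hi, hj, h1⟩ := h1
      obtain ⟨_, _, h2⟩ := h2
      rw [h1, h2]
      exact (ih i hi (by omega)).sub (ih j hj (by omega))
    | mul i j =>
      rw [hP] at h1 h2
      obtain ⟨hi, hj, h1⟩ := h1
      obtain ⟨_, _, h2⟩ := h2
      rw [h1, h2]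
      exact (ih i hi (by omega)).mul (ih j hj (by omega))
    | div i j =>
      rw [hP] at h1 h2
      obtain ⟨hi, hj, _, h1⟩ := h1
      obtain ⟨_, _, h0, h2⟩ := h2
      rw [h1, h2]
      exact (ih i hi (by omega)).div (ih j hj (by omega)) h0

/-- the first gate of large degree -/
theorem first_gate {L : ℕ} {P : ℕ → Instr} {g : ℕ → RatFunc ℚ}
    (hg : ∀ k ≤ L, Step (fun a => RatFunc.C a) RatFunc.X g k (P k)) {t : ℕ} (ht : 1 ≤ t)
    (hL : ¬ Bd (t - 1) (g L)) : ∃ k ≤ L, ¬ Bd (t - 1) (g k) ∧ Bd (2 * t - 1) (g k) := by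
  classical
  have hex : ∃ k, k ≤ L ∧ ¬ Bd (t - 1) (g k) := ⟨L, le_rfl, hL⟩
  obtain ⟨k, hkf⟩ : ∃ k, k = Nat.find hex := ⟨_, rfl⟩
  have hspec := Nat.find_spec hex
  rw [← hkf] at hspec
  obtain ⟨hk, hdeg⟩ := hspec
  have hmin : ∀ j < k, Bd (t - 1) (g j) := by
    intro j hj
    have h1 := Nat.find_min hex (by rw [← hkf]; exact hj)
    by_contra h
    exact h1 ⟨by omega, h⟩
  refine ⟨k, hk, hdeg, ?_⟩
  have h1 := hg k hk
  cases hP : P k with
  | var =>
    rw [hP] at h1
    simp only [Step] at h1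
    rw [h1]
    exact Bd.var.mono (by omega)
  | const a =>
    rw [hP] at h1
    simp only [Step] at h1
    rw [h1]
    exact (Bd.const a).mono (by omega)
  | add i j =>
    rw [hP] at h1
    obtain ⟨hi, hj, h1⟩ := h1
    rw [h1]
    exact ((hmin i hi).add (hmin j hj)).mono (by omega)
  | sub i j =>
    rw [hP] at h1
    obtain ⟨hi, hj, h1⟩ := h1
    rw [h1]
    exact ((hmin i hi).sub (hmin j hj)).mono (by omega)
  | mul i j =>
    rw [hP] at h1
    obtain ⟨hi, hj, h1⟩ := h1
    rw [h1]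
    exact ((hmin i hi).mul (hmin j hj)).mono (by omega)
  | div i j =>
    rw [hP] at h1
    obtain ⟨hi, hj, h0, h1⟩ := h1
    rw [h1]
    exact ((hmin i hi).div (hmin j hj) h0).mono (by omega)

/-- the variable occurs -/
theorem exists_var {L : ℕ} {P : ℕ → Instr} {g : ℕ → RatFunc ℚ}
    (hg : ∀ k ≤ L, Step (fun a => RatFunc.C a) RatFunc.X g k (P k))
    (hL : ¬ Bd 0 (g L)) : ∃ k ≤ L, P k = Instr.var := by
  by_contra hcon
  push Not at hcon
  have hall : ∀ k ≤ L, Bd 0 (g k) := by
    intro k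
    induction k using Nat.strong_induction_on with
    | _ k ih =>
      intro hk
      have h1 := hg k hk
      cases hP : P k with
      | var => exact absurd hP (hcon k hk)
      | const a =>
        rw [hP] at h1
        simp only [Step] at h1
        rw [h1]
        exact Bd.const a
      | add i j =>
        rw [hP] at h1
        obtain ⟨hi, hj, h1⟩ := h1
        rw [h1]
        exact (ih i hi (by omega)).add (ih j hj (by omega))
      | sub i j =>
        rw [hP] at h1
        obtain ⟨hi, hj, h1⟩ := h1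
        rw [h1]
        exact (ih i hi (by omega)).sub (ih j hj (by omega))
      | mul i j =>
        rw [hP] at h1
        obtain ⟨hi, hj, h1⟩ := h1
        rw [h1]
        exact (ih i hi (by omega)).mul (ih j hj (by omega))
      | div i j =>
        rw [hP] at h1
        obtain ⟨hi, hj, h0, h1⟩ := h1
        rw [h1]
        exact (ih i hi (by omega)).div (ih j hj (by omega)) h0
  exact hL (hall L le_rfl)

/-- the inverse of a polynomial function whose values are units -/
theorem inv_poly {R : Type} [CommRing R] {J : Type} [Fintype J] (ξ : J → R) (H : R[X])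
    (hu : ∀ j, IsUnit (H.eval (ξ j))) : ∃ H' : R[X], ∀ j, H.eval (ξ j) * H'.eval (ξ j) = 1 := by
  classical
  choose u hu' using hu
  obtain ⟨χ, hχ⟩ : ∃ χ : R[X], χ = ∏ j, (1 - C ((u j)⁻¹ : Rˣ).val * X) := ⟨_, rfl⟩
  have h0 : (1 - χ).coeff 0 = 0 := by
    rw [coeff_zero_eq_eval_zero, eval_sub, hχ, eval_prod]
    simp
  have h1 : (1 - χ).divX * X = 1 - χ := by
    have := divX_mul_X_add (1 - χ)
    rwa [h0, C_0, add_zero] at this
  refine ⟨(1 - χ).divX.comp H, fun j => ?_⟩
  have h2 := congrArg (fun r => Polynomial.eval (H.eval (ξ j)) r) h1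
  simp only [eval_mul, eval_X, eval_sub, eval_one] at h2
  have h3 : χ.eval (H.eval (ξ j)) = 0 := by
    rw [hχ, eval_prod]
    refine Finset.prod_eq_zero (Finset.mem_univ j) ?_
    rw [eval_sub, eval_one, eval_mul, eval_C, eval_X, ← hu' j, Units.inv_mul, sub_self]
  rw [h3, sub_zero] at h2
  rw [eval_comp, mul_comm]
  exact h2

/-- rational numbers whose denominators are prime to `p` -/
theorem norm_le {p : ℕ} [Fact p.Prime] {a : ℚ} (h : ¬ p ∣ a.den) : ‖((a : ℚ) : ℚ_[p])‖ ≤ 1 :=
  Padic.norm_rat_le_one h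

theorem norm_eq {p : ℕ} [Fact p.Prime] {a : ℚ} (ha : a ≠ 0) (h : ¬ p ∣ a.den)
    (h' : ¬ p ∣ a.num.natAbs) : ‖((a : ℚ) : ℚ_[p])‖ = 1 := by
  have h1 := norm_le (p := p) h
  have h2 : ‖((a⁻¹ : ℚ) : ℚ_[p])‖ ≤ 1 := by
    refine norm_le (p := p) ?_
    rw [Rat.den_inv_of_ne_zero ha]
    exact h'
  rw [Rat.cast_inv, norm_inv] at h2
  have h3 : 0 < ‖((a : ℚ) : ℚ_[p])‖ := norm_pos_iff.2 (by exact_mod_cast ha)
  have h4 : 1 ≤ ‖((a : ℚ) : ℚ_[p])‖ := by
    rwa [inv_le_one₀ h3] at h2
  exact le_antisymm h1 h4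

/-- the results at the points without bad reduction are values of integral polynomials -/
theorem rep {L : ℕ} {P : ℕ → Instr} {p : ℕ} [Fact p.Prime] {J : Type} [Fintype J] (x : J → ℚ)
    (w : J → ℕ → ℚ) (hw : ∀ j, ∀ k ≤ L, Step (fun a => a) (x j) (w j) k (P k))
    (hd : ∀ j, ∀ k ≤ L, ¬ p ∣ (w j k).den)
    (hn : ∀ j, ∀ k ≤ L, w j k ≠ 0 → ¬ p ∣ (w j k).num.natAbs) (ξ : J → ℤ_[p])
    (hξ : ∀ j, ((ξ j : ℤ_[p]) : ℚ_[p]) = ((x j : ℚ) : ℚ_[p])) : ∀ k ≤ L,
    ∃ H : ℤ_[p][X], ∀ j, ((H.eval (ξ j) : ℤ_[p]) : ℚ_[p]) = ((w j k : ℚ) : ℚ_[p]) := by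
  intro k
  induction k using Nat.strong_induction_on with
  | _ k ih =>
    intro hk
    rcases isEmpty_or_nonempty J with hJ | ⟨⟨j0⟩⟩
    · exact ⟨0, fun j => (IsEmpty.false j).elim⟩
    cases hP : P k with
    | var =>
      refine ⟨X, fun j => ?_⟩
      have h1 := hw j k hk
      rw [hP] at h1
      simp only [Step] at h1
      rw [eval_X, h1, hξ]
    | const a =>
      have h0 := hw j0 k hk
      rw [hP] at h0
      simp only [Step] at h0
      have h2 := norm_le (p := p) (hd j0 k hk)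
      rw [h0] at h2
      obtain ⟨α, hα⟩ : ∃ α : ℤ_[p], (α : ℚ_[p]) = ((a : ℚ) : ℚ_[p]) := ⟨⟨_, h2⟩, rfl⟩
      refine ⟨C α, fun j => ?_⟩
      have h1 := hw j k hk
      rw [hP] at h1
      simp only [Step] at h1
      rw [eval_C, h1, hα]
    | add i i' =>
      have h0 := hw j0 k hk
      rw [hP] at h0
      obtain ⟨hi, hi', _⟩ := h0
      obtain ⟨H, hH⟩ := ih i hi (by omega)
      obtain ⟨H', hH'⟩ := ih i' hi' (by omega)
      refine ⟨H + H', fun j => ?_⟩
      have h1 := hw j k hk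
      rw [hP] at h1
      obtain ⟨_, _, h1⟩ := h1
      rw [eval_add, h1, PadicInt.coe_add, hH, hH']
      push_cast
      rfl
    | sub i i' =>
      have h0 := hw j0 k hk
      rw [hP] at h0
      obtain ⟨hi, hi', _⟩ := h0
      obtain ⟨H, hH⟩ := ih i hi (by omega)
      obtain ⟨H', hH'⟩ := ih i' hi' (by omega)
      refine ⟨H - H', fun j => ?_⟩
      have h1 := hw j k hk
      rw [hP] at h1
      obtain ⟨_, _, h1⟩ := h1
      rw [eval_sub, h1, PadicInt.coe_sub, hH, hH']
      push_cast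
      rfl
    | mul i i' =>
      have h0 := hw j0 k hk
      rw [hP] at h0
      obtain ⟨hi, hi', _⟩ := h0
      obtain ⟨H, hH⟩ := ih i hi (by omega)
      obtain ⟨H', hH'⟩ := ih i' hi' (by omega)
      refine ⟨H * H', fun j => ?_⟩
      have h1 := hw j k hk
      rw [hP] at h1
      obtain ⟨_, _, h1⟩ := h1
      rw [eval_mul, h1, PadicInt.coe_mul, hH, hH']
      push_cast
      rfl
    | div i i' =>
      have h0 := hw j0 k hk
      rw [hP] at h0
      obtain ⟨hi, hi', _, _⟩ := h0
      obtain ⟨H, hH⟩ := ih i hi (by omega)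
      obtain ⟨H', hH'⟩ := ih i' hi' (by omega)
      have hne : ∀ j, w j i' ≠ 0 := by
        intro j
        have h1 := hw j k hk
        rw [hP] at h1
        exact h1.2.2.1
      obtain ⟨H'', hH''⟩ := inv_poly ξ H' (by
        intro j
        rw [PadicInt.isUnit_iff, ← PadicInt.padic_norm_e_of_padicInt, hH']
        exact norm_eq (hne j) (hd j i' (by omega)) (hn j i' (by omega) (hne j)))
      refine ⟨H * H'', fun j => ?_⟩
      have h1 := hw j k hk
      rw [hP] at h1
      obtain ⟨_, _, _, h1⟩ := h1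
      rw [eval_mul, h1, PadicInt.coe_mul, hH]
      have h2 := congrArg (fun z : ℤ_[p] => (z : ℚ_[p])) (hH'' j)
      simp only [PadicInt.coe_mul, PadicInt.coe_one, hH'] at h2
      have h3 : ((w j i' : ℚ) : ℚ_[p]) ≠ 0 := by exact_mod_cast hne j
      rw [Rat.cast_div, div_eq_mul_inv]
      congr 1
      exact eq_inv_of_mul_eq_one_right h2

end Pool.Agent.TH777.LC
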