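import Pool.Agent.TH777.LC.Ind
import Pool.Agent.TH777.LC.Prog

set_option autoImplicit false

/-!
# A large independent family of products of powers of gates
-/

namespace Pool.Agent.TH777.LC

open Polynomial

/-- the first gate of large degree, with its exact degree -/
theorem first_exact {L : ℕ} {P : ℕ → Instr} {g : ℕ → RatFunc ℚ}
    (hg : ∀ k ≤ L, Step (fun a => RatFunc.C a) RatFunc.X g k (P k)) {T : ℕ} (hT : 1 ≤ T)
    (hL : ¬ Bd (T - 1) (g L)) :
    ∃ k ≤ L, ∃ e, T ≤ e ∧ e ≤ 2 * T - 1 ∧ ¬ Bd (e - 1) (g k) ∧ Bd e (g k) := by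
  classical
  obtain ⟨k, hk, h1, h2⟩ := first_gate hg hT hL
  have hex : ∃ e, Bd e (g k) := ⟨_, h2⟩
  refine ⟨k, hk, Nat.find hex, ?_, Nat.find_min' hex h2, ?_, Nat.find_spec hex⟩
  · by_contra h3
    exact h1 ((Nat.find_spec hex).mono (by omega))
  · intro h3
    have h4 := Nat.find_min' hex h3
    have h5 : T ≤ Nat.find hex := by
      by_contra h6
      exact h1 ((Nat.find_spec hex).mono (by omega))
    omega

/-- the family of products -/
noncomputable def mono (L : ℕ) (g : ℕ → RatFunc ℚ) (a : ℕ → ℕ) : RatFunc ℚ :=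
  ∏ k ∈ Finset.range (L + 1), g k ^ (a k)

theorem mono_zero (L : ℕ) (g : ℕ → RatFunc ℚ) (a : ℕ → ℕ) (ha : ∀ k, a k = 0) :
    mono L g a = 1 := by
  rw [mono]
  exact Finset.prod_eq_one fun k _ => by rw [ha, pow_zero]

theorem mono_step {L : ℕ} (g : ℕ → RatFunc ℚ) (a : ℕ → ℕ) {k₀ : ℕ} (hk : k₀ ≤ L)
    (ha : a k₀ = 0) (r : ℕ) :
    mono L g (fun k => if k = k₀ then r else a k) = mono L g a * g k₀ ^ r := by
  classical
  have h0 : k₀ ∈ Finset.range (L + 1) := Finset.mem_range.2 (by omega)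
  rw [mono, mono, ← Finset.mul_prod_erase _ _ h0, ← Finset.mul_prod_erase _ _ h0, if_pos rfl, ha,
    pow_zero, one_mul, mul_comm]
  congr 1
  refine Finset.prod_congr rfl fun k hk' => ?_
  rw [if_neg (Finset.ne_of_mem_erase hk')]

/-- the trivial family -/
theorem fam_one (L : ℕ) (g : ℕ → RatFunc ℚ) :
    Indep (fun _ : Unit => mono L g (fun _ => 0)) ∧ CD 0 (fun _ : Unit => mono L g (fun _ => 0)) := by
  rw [mono_zero L g _ fun _ => rfl]
  constructor
  · intro c hc i
    simp only [mul_one, Finset.univ_unique, Finset.sum_singleton] at hc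
    have h1 : em (C (c i)) = em 0 := by
      rw [em_C, em, map_zero]
      exact hc
    have h2 := em_inj h1
    rwa [C_eq_zero] at h2
  · exact ⟨1, one_ne_zero, fun _ => ⟨1, by simp, by simp [em]⟩⟩

theorem fam_step {L t e r : ℕ} {g : ℕ → RatFunc ℚ} {ι : Type} [Fintype ι] {a : ι → ℕ → ℕ} {k₀ : ℕ}
    (hk : k₀ ≤ L) (he : 1 ≤ e) (h1 : ¬ Bd (e - 1) (g k₀)) (h2 : Bd e (g k₀)) (het : r * e ≤ t)
    (hr : 1 ≤ r) (ha : ∀ m k, a m k ≠ 0 → Bd (e - 1) (g k))
    (hI : Indep fun m => mono L g (a m)) (hC : CD (e - 1) fun m => mono L g (a m)) :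
    (Indep fun m : ι × Fin r => mono L g fun k => if k = k₀ then (m.2 : ℕ) else a m.1 k) ∧
      CD (t - 1) fun m : ι × Fin r => mono L g fun k => if k = k₀ then (m.2 : ℕ) else a m.1 k := by
  have hf : (fun m : ι × Fin r => mono L g fun k => if k = k₀ then (m.2 : ℕ) else a m.1 k) =
      fun m : ι × Fin r => mono L g (a m.1) * g k₀ ^ (m.2 : ℕ) := by
    funext m
    refine mono_step g (a m.1) hk ?_ _
    by_contra h3
    exact h1 (ha _ _ h3)
  rw [hf]
  refine ⟨hI.step hC h1, ?_⟩
  obtain ⟨Δ, h6, h7⟩ := hC.step (q := r) h2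
  refine ⟨Δ, h6, fun i => ?_⟩
  obtain ⟨U, h8, h9⟩ := h7 i
  refine ⟨U, h8.trans ?_, h9⟩
  obtain ⟨r', rfl⟩ : ∃ r', r = r' + 1 := ⟨r - 1, by omega⟩
  have h10 : (r' + 1) * e = r' * e + e := by ring
  have h11 : r' + 1 - 1 = r' := rfl
  rw [h11]
  omega

/-- the large family -/
theorem fam {L : ℕ} {P : ℕ → Instr} {g : ℕ → RatFunc ℚ}
    (hg : ∀ k ≤ L, Step (fun a => RatFunc.C a) RatFunc.X g k (P k)) {q : ℕ} (hq : 2 ≤ q) :
    ∀ t : ℕ, 1 ≤ t → ¬ Bd (t - 1) (g L) →
    ∃ (ι : Type) (_ : Fintype ι) (a : ι → ℕ → ℕ),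
      t * q ^ (Nat.log q t) ≤ Fintype.card ι * (q + 1) ^ (Nat.log q t) ∧
      (∀ m k, a m k ≤ 4 * q) ∧ (∀ m k, a m k ≠ 0 → Bd (t - 1) (g k)) ∧
      (Indep fun m => mono L g (a m)) ∧ CD (t - 1) fun m => mono L g (a m) := by
  intro t
  induction t using Nat.strong_induction_on with
  | _ t ih =>
    intro ht hL
    rcases Nat.lt_or_ge 1 t with ht1 | ht1
    swap
    · obtain rfl : t = 1 := by omega
      refine ⟨Unit, inferInstance, fun _ _ => 0, ?_, fun _ _ => Nat.zero_le _,
        fun _ _ h => absurd rfl h, ?_⟩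
      · rw [Nat.log_one_right]
        simp
      · exact fam_one L g
    obtain ⟨k₀, hk₀, e, he1, het, h1, h2, hcase⟩ : ∃ k₀ ≤ L, ∃ e, 1 ≤ e ∧ e < t ∧
        ¬ Bd (e - 1) (g k₀) ∧ Bd e (g k₀) ∧ ((e = 1 ∧ t < 2 * q) ∨ (q * e ≤ t ∧ t < 4 * q * e)) := by
      rcases Nat.lt_or_ge t (2 * q) with h3 | h3
      · have h4 : ¬ Bd (1 - 1) (g L) := fun h => hL (h.mono (by omega))
        obtain ⟨k, hk, e, h5, h6, h7, h8⟩ := first_exact hg le_rfl h4
        have h9 : e = 1 := by omega
        exact ⟨k, hk, e, h5, by omega, h7, h8, Or.inl ⟨h9, h3⟩⟩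
      · obtain ⟨T, hT⟩ : ∃ T, T = t / (2 * q) := ⟨_, rfl⟩
        have hT1 : 1 ≤ T := by
          rw [hT, Nat.le_div_iff_mul_le (by omega)]
          omega
        have hT2 : T * (2 * q) ≤ t := by
          rw [hT]
          exact Nat.div_mul_le_self _ _
        have hT3 : t < (T + 1) * (2 * q) := by
          rw [hT, mul_comm]
          exact Nat.lt_mul_div_succ t (by omega)
        have hTt : T ≤ t := by
          refine le_trans ?_ hT2
          exact Nat.le_mul_of_pos_right _ (by omega)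
        have h4 : ¬ Bd (T - 1) (g L) := fun h => hL (h.mono (by omega))
        obtain ⟨k, hk, e, h5, h6, h7, h8⟩ := first_exact hg hT1 h4
        have h9 : q * e ≤ t := by
          refine le_trans ?_ hT2
          have : e ≤ T * 2 := by omega
          calc q * e ≤ q * (T * 2) := Nat.mul_le_mul_left _ this
            _ = T * (2 * q) := by ring
        have h10 : t < 4 * q * e := by
          refine hT3.trans_le ?_
          have : T + 1 ≤ 2 * e := by omega
          calc (T + 1) * (2 * q) ≤ (2 * e) * (2 * q) := Nat.mul_le_mul_right _ this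
            _ = 4 * q * e := by ring
        have h11 : e < t := by
          have : 2 * e ≤ q * e := Nat.mul_le_mul_right _ hq
          omega
        exact ⟨k, hk, e, by omega, h11, h7, h8, Or.inr ⟨h9, h10⟩⟩
    obtain ⟨ι, hι, a, i1, i2, i3, i4, i5⟩ := ih e het he1 fun h => hL (h.mono (by omega))
    obtain ⟨r, hr⟩ : ∃ r, r = t / e := ⟨_, rfl⟩
    have hr1 : r * e ≤ t := by
      rw [hr]
      exact Nat.div_mul_le_self _ _
    have hr2 : t < (r + 1) * e := by
      rw [hr, mul_comm]
      exact Nat.lt_mul_div_succ t he1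
    have hr3 : 1 ≤ r := by
      rw [hr, Nat.le_div_iff_mul_le he1]
      omega
    obtain ⟨s1, s2⟩ := fam_step (t := t) hk₀ he1 h1 h2 hr1 hr3 i3 i4 i5
    refine ⟨ι × Fin r, inferInstance, fun m k => if k = k₀ then (m.2 : ℕ) else a m.1 k, ?_, ?_, ?_,
      s1, s2⟩
    · rw [Fintype.card_prod, Fintype.card_fin]
      rcases hcase with ⟨h3, h4⟩ | ⟨h3, h4⟩
      · rw [h3, Nat.log_one_right, pow_zero, pow_zero, mul_one, mul_one] at i1
        have h5 : r = t := by rw [hr, h3, Nat.div_one]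
        rw [h5]
        refine Nat.mul_le_mul ?_ (Nat.pow_le_pow_left (by omega) _)
        exact Nat.le_mul_of_pos_left _ (by omega)
      · have h5 : Nat.log q e + 1 ≤ Nat.log q t := by
          rw [← Nat.log_mul_base (by omega) (by omega), mul_comm]
          exact Nat.log_mono_right h3
        obtain ⟨j, hj⟩ : ∃ j, Nat.log q t = Nat.log q e + 1 + j := ⟨_, (Nat.add_sub_of_le h5).symm⟩
        have h6 : q ≤ r := by
          rw [hr, Nat.le_div_iff_mul_le he1]
          exact h3
        have h7 : (r + 1) * q ≤ r * (q + 1) := by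
          have e1 : (r + 1) * q = r * q + q := by ring
          have e2 : r * (q + 1) = r * q + r := by ring
          omega
        rw [hj]
        calc t * q ^ (Nat.log q e + 1 + j) ≤ ((r + 1) * e) * q ^ (Nat.log q e + 1 + j) :=
              Nat.mul_le_mul_right _ hr2.le
          _ = ((r + 1) * q) * (e * q ^ (Nat.log q e)) * q ^ j := by
              rw [pow_add, pow_add, pow_one]
              ring
          _ ≤ (r * (q + 1)) * (Fintype.card ι * (q + 1) ^ (Nat.log q e)) * (q + 1) ^ j :=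
              Nat.mul_le_mul (Nat.mul_le_mul h7 i1) (Nat.pow_le_pow_left (by omega) _)
          _ = Fintype.card ι * r * (q + 1) ^ (Nat.log q e + 1 + j) := by
              rw [pow_add, pow_add, pow_one]
              ring
    · intro m k
      show (if k = k₀ then (m.2 : ℕ) else a m.1 k) ≤ 4 * q
      split_ifs
      · have h3 := m.2.2
        have h4 : r ≤ 4 * q := by
          rcases hcase with ⟨h3, h4⟩ | ⟨h3, h4⟩
          · have h5 : r = t := by rw [hr, h3, Nat.div_one]
            omega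
          · have h5 : r < 4 * q := by
              rw [hr, Nat.div_lt_iff_lt_mul he1]
              exact h4
            omega
        omega
      · exact i2 _ _
    · intro m k
      show (if k = k₀ then (m.2 : ℕ) else a m.1 k) ≠ 0 → Bd (t - 1) (g k)
      split_ifs with h3
      · intro _
        rw [h3]
        exact h2.mono (by omega)
      · intro h4
        exact (i3 _ _ h4).mono (by omega)

end Pool.Agent.TH777.LC
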