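import Pool.Agent.TH777.LC.Ind

set_option autoImplicit false

/-!
# Choice of points with a nonzero determinant
-/

namespace Pool.Agent.TH777.LC

open Polynomial

theorem select {n E : ℕ} (f : Fin n → RatFunc ℚ) (hf : Indep f) (hcd : CD E f) (S : Finset ℚ)
    (hS : E < S.card) (v : ℚ → Fin n → ℚ) (hv : ∀ x ∈ S, ∀ m, Val x (f m) (v x m)) :
    ∃ x : Fin n → ℚ, (∀ j, x j ∈ S) ∧ (Matrix.of fun j m => v (x j) m).det ≠ 0 := by
  classical
  obtain ⟨κ, a, _, hsp, hli⟩ := exists_linearIndependent' ℚ (fun x : S => v (x : ℚ))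
  have htop : Submodule.span ℚ (Set.range fun x : S => v (x : ℚ)) = ⊤ := by
    by_contra hne
    obtain ⟨φ, hφ0, hφ⟩ := Submodule.exists_le_ker_of_lt_top _ (lt_top_iff_ne_top.2 hne)
    obtain ⟨c, hc⟩ : ∃ c : Fin n → ℚ, c = fun i => φ (Pi.single i 1) := ⟨_, rfl⟩
    have hφc : ∀ u : Fin n → ℚ, φ u = ∑ i, c i * u i := by
      intro u
      conv_lhs => rw [pi_eq_sum_univ' u]
      rw [map_sum, hc]
      refine Finset.sum_congr rfl fun i _ => ?_
      rw [map_smul, smul_eq_mul, mul_comm]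
    have hz : ∀ x ∈ S, ∑ i, c i * v x i = 0 := by
      intro x hx
      rw [← hφc]
      have h1 : v x ∈ Submodule.span ℚ (Set.range fun x : S => v (x : ℚ)) :=
        Submodule.subset_span ⟨⟨x, hx⟩, rfl⟩
      exact hφ h1
    obtain ⟨Δ, h0, h1⟩ := hcd
    choose U hU using h1
    obtain ⟨h2, h3⟩ := CD.comb hU c
    have hR : (∑ i, RatFunc.C (c i) * f i) ≠ 0 := by
      intro h4
      have h5 := hf c h4
      apply hφ0
      ext u
      simp [hφc, h5]
    have hP0 : (∑ i, C (c i) * U i) ≠ 0 := by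
      intro h4
      rw [h4] at h3
      have h5 : em (0 : ℚ[X]) = 0 := map_zero _
      rw [h5] at h3
      rcases mul_eq_zero.1 h3 with h6 | h6
      · exact hR h6
      · exact em_ne h0 h6
    have h6 := card_le_natDegree hP0 S (by
      intro x hx
      have h7 : Val x (∑ i, RatFunc.C (c i) * f i) (∑ i, c i * v x i) :=
        Val.sum _ _ _ fun i _ => (Val.const x (c i)).mul (hv x hx i)
      rw [hz x hx] at h7
      rw [h7.eval h3, zero_mul])
    omega
  have hb := Module.Basis.mk hli (by rw [hsp, htop])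
  have : Fintype κ := FiniteDimensional.fintypeBasisIndex hb
  have hcard : Fintype.card κ = n := by
    rw [← Module.finrank_eq_card_basis hb, Module.finrank_fin_fun]
  obtain ⟨e⟩ : Nonempty (Fin n ≃ κ) := ⟨(Fintype.equivFinOfCardEq hcard).symm⟩
  refine ⟨fun j => (a (e j) : ℚ), fun j => (a (e j)).2, ?_⟩
  have hli' : LinearIndependent ℚ (fun j : Fin n => v (a (e j) : ℚ)) :=
    hli.comp e e.injective
  have h1 : IsUnit (Matrix.of fun j m => v (a (e j) : ℚ) m) :=
    Matrix.linearIndependent_rows_iff_isUnit.1 hli'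
  exact ((Matrix.isUnit_iff_isUnit_det _).1 h1).ne_zero

end Pool.Agent.TH777.LC
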