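import Pool.Agent.TH777.LC.Mat
import Pool.Agent.TH777.LC.Sel

set_option autoImplicit false

/-!
# The bound for the number of rational zeros
-/

namespace Pool.Agent.TH777.LC

open Polynomial

theorem num1 {c : ℝ} (hc : 0 < c) {n B R : ℕ} (hn : 1 ≤ n) (hB : 1 ≤ B) (hR : B ≤ R)
    (h : (n : ℝ) ^ 2 * (Real.log ((n : ℝ) / B) / 2 - c) ≤
      n * Real.log n + n * (R * Real.log 2)) : (n : ℝ) ≤ Real.exp (2 * c + 4) * R := by
  have hn0 : (0 : ℝ) < n := by exact_mod_cast hn
  have hB0 : (0 : ℝ) < B := by exact_mod_cast hB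
  have hBR : (B : ℝ) ≤ R := by exact_mod_cast hR
  have hR0 : (0 : ℝ) < R := by linarith
  have hE : 1 ≤ Real.exp (2 * c + 4) := Real.one_le_exp (by linarith)
  rcases le_or_gt ((n : ℝ) / B) (Real.exp (2 * c + 4)) with h1 | h1
  · rw [div_le_iff₀ hB0] at h1
    exact h1.trans (mul_le_mul_of_nonneg_left hBR (by linarith))
  · have h2 : 2 * c + 4 < Real.log ((n : ℝ) / B) := by
      rw [Real.lt_log_iff_exp_lt (by positivity)]
      exact h1
    have h3 : (n : ℝ) ^ 2 * 2 ≤ n * Real.log n + n * (R * Real.log 2) := by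
      refine le_trans ?_ h
      exact mul_le_mul_of_nonneg_left (by linarith) (by positivity)
    have h4 : (n : ℝ) * 2 ≤ Real.log n + R * Real.log 2 := by
      have h5 : (n : ℝ) * (n * 2) ≤ n * (Real.log n + R * Real.log 2) := by
        calc (n : ℝ) * (n * 2) = (n : ℝ) ^ 2 * 2 := by ring
          _ ≤ n * Real.log n + n * (R * Real.log 2) := h3
          _ = _ := by ring
      exact le_of_mul_le_mul_left h5 hn0
    have h5 : Real.log n ≤ n := (Real.log_le_sub_one_of_pos hn0).trans (by linarith)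
    have h6 : (R : ℝ) * Real.log 2 ≤ R * 1 := by
      refine mul_le_mul_of_nonneg_left ?_ hR0.le
      have := Real.log_two_lt_d9
      linarith
    have h7 : (n : ℝ) ≤ R := by linarith
    calc (n : ℝ) ≤ 1 * R := by linarith
      _ ≤ _ := mul_le_mul_of_nonneg_right hE hR0.le

theorem num2 {C : ℝ} (hC : 1 ≤ C) {s n q B : ℕ} (hs : 1 ≤ s) (hq : 3 ≤ q) (hB : 1 ≤ B)
    (hBq : B ≤ q ^ q) (hn : (n : ℝ) ≤ C * (4 * q * B))
    (h : s * q ^ (Nat.log q s) ≤ n * (q + 1) ^ (Nat.log q s)) :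
    (s : ℝ) ≤ (4 * C * Real.exp (3 / 2 * (Real.log (4 * C) + 2))) * (q * B) := by
  obtain ⟨j, hj⟩ : ∃ j, j = Nat.log q s := ⟨_, rfl⟩
  rw [← hj] at h
  have hq0 : (0 : ℝ) < q := by
    have : (3 : ℝ) ≤ q := by exact_mod_cast hq
    linarith
  have hq3 : (3 : ℝ) ≤ q := by exact_mod_cast hq
  have hB0 : (0 : ℝ) < B := by exact_mod_cast hB
  have hs0 : (0 : ℝ) < s := by exact_mod_cast hs
  have hn1 : 1 ≤ n := by
    rcases Nat.eq_zero_or_pos n with h0 | h0
    · rw [h0, zero_mul] at h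
      have h1 : 0 < s * q ^ j := by positivity
      omega
    · exact h0
  have hn0 : (0 : ℝ) < n := by exact_mod_cast hn1
  have hlogq : 1 ≤ Real.log q := by
    rw [Real.le_log_iff_exp_le hq0]
    have := Real.exp_one_lt_d9
    linarith
  have hlogC : 0 ≤ Real.log (4 * C) := Real.log_nonneg (by linarith)
  have hr : (s : ℝ) * (q : ℝ) ^ j ≤ n * ((q : ℝ) + 1) ^ j := by exact_mod_cast h
  have hu : ((q : ℝ) + 1) = q * (1 + 1 / q) := by
    field_simp
  have hs2 : (s : ℝ) ≤ n * (1 + 1 / (q : ℝ)) ^ j := by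
    have h1 : (s : ℝ) * (q : ℝ) ^ j ≤ (n * (1 + 1 / (q : ℝ)) ^ j) * (q : ℝ) ^ j := by
      calc (s : ℝ) * (q : ℝ) ^ j ≤ n * ((q : ℝ) + 1) ^ j := hr
        _ = (n * (1 + 1 / (q : ℝ)) ^ j) * (q : ℝ) ^ j := by
            rw [hu, mul_pow]
            ring
    exact le_of_mul_le_mul_right h1 (by positivity)
  have hexp : (1 + 1 / (q : ℝ)) ^ j ≤ Real.exp (j / q) := by
    calc (1 + 1 / (q : ℝ)) ^ j ≤ (Real.exp (1 / q)) ^ j := by
          refine pow_le_pow_left₀ (by positivity) ?_ _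
          have := Real.add_one_le_exp (1 / (q : ℝ))
          linarith
      _ = Real.exp (j / q) := by
          rw [← Real.exp_nat_mul]
          congr 1
          ring
  have hs3 : (s : ℝ) ≤ n * Real.exp (j / q) :=
    hs2.trans (mul_le_mul_of_nonneg_left hexp hn0.le)
  -- bound for `j`
  have hqj : (q : ℝ) ^ j ≤ s := by
    have : q ^ j ≤ s := by
      rw [hj]
      exact Nat.pow_log_le_self q (by omega)
    exact_mod_cast this
  have h1 : (j : ℝ) * Real.log q ≤ Real.log n + j / q := by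
    have h2 : Real.log ((q : ℝ) ^ j) ≤ Real.log (n * Real.exp (j / q)) :=
      Real.log_le_log (by positivity) (hqj.trans hs3)
    rw [Real.log_pow, Real.log_mul (by positivity) (by positivity), Real.log_exp] at h2
    exact h2
  have h2 : (j : ℝ) / q ≤ 1 / 3 * (j * Real.log q) := by
    have h3 : (j : ℝ) / q ≤ j / 3 := by
      exact div_le_div_of_nonneg_left (Nat.cast_nonneg _) (by norm_num) hq3
    have h4 : (j : ℝ) * 1 ≤ j * Real.log q := mul_le_mul_of_nonneg_left hlogq (Nat.cast_nonneg _)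
    linarith
  have h3 : Real.log n ≤ Real.log (4 * C) + Real.log q + q * Real.log q := by
    have h4 : (n : ℝ) ≤ (4 * C) * q * q ^ q := by
      refine hn.trans ?_
      have h5 : (B : ℝ) ≤ (q : ℝ) ^ q := by exact_mod_cast hBq
      calc C * (4 * q * B) = (4 * C * q) * B := by ring
        _ ≤ (4 * C * q) * q ^ q := mul_le_mul_of_nonneg_left h5 (by positivity)
        _ = _ := by ring
    have h5 := Real.log_le_log hn0 h4
    rw [Real.log_mul (by positivity) (by positivity), Real.log_mul (by positivity) (by positivity),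
      Real.log_pow] at h5
    exact h5
  have h4 : (j : ℝ) * Real.log q ≤
      (3 / 2 * (Real.log (4 * C) + 2) * q) * Real.log q := by
    have h5 : (j : ℝ) * Real.log q ≤ 3 / 2 * (Real.log (4 * C) + Real.log q + q * Real.log q) := by
      linarith
    refine h5.trans ?_
    have h6 : Real.log (4 * C) ≤ (Real.log (4 * C) * q) * Real.log q := by
      have h7 : Real.log (4 * C) * 1 * 1 ≤ (Real.log (4 * C) * q) * Real.log q :=
        mul_le_mul (mul_le_mul_of_nonneg_left (by linarith) hlogC) hlogq (by norm_num)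
          (by positivity)
      linarith
    have h8 : Real.log q ≤ q * Real.log q := by
      have : 1 * Real.log q ≤ q * Real.log q :=
        mul_le_mul_of_nonneg_right (by linarith) (by linarith)
      linarith
    calc 3 / 2 * (Real.log (4 * C) + Real.log q + q * Real.log q) ≤
        3 / 2 * ((Real.log (4 * C) * q) * Real.log q + q * Real.log q + q * Real.log q) := by
          linarith
      _ = _ := by ring
  have h5 : (j : ℝ) ≤ 3 / 2 * (Real.log (4 * C) + 2) * q :=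
    le_of_mul_le_mul_right h4 (by linarith)
  have h6 : (j : ℝ) / q ≤ 3 / 2 * (Real.log (4 * C) + 2) := by
    rw [div_le_iff₀ hq0]
    exact h5
  calc (s : ℝ) ≤ n * Real.exp (j / q) := hs3
    _ ≤ (C * (4 * q * B)) * Real.exp (3 / 2 * (Real.log (4 * C) + 2)) :=
        mul_le_mul hn (Real.exp_le_exp.2 h6) (Real.exp_pos _).le (by positivity)
    _ = _ := by ring

open Pool.Agent.H537R6 in
theorem core : ∃ C : ℝ, 1 ≤ C ∧ ∀ (L : ℕ) (P : ℕ → Instr) (g : ℕ → RatFunc ℚ) (B q : ℕ)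
    (S : Finset ℚ) (w : ℚ → ℕ → ℚ),
    (∀ k ≤ L, Step (fun a => RatFunc.C a) RatFunc.X g k (P k)) → g L ≠ 0 → 1 ≤ B → 2 ≤ q →
    (∀ x ∈ S, (∀ k ≤ L, Step (fun a => a) x (w x) k (P k)) ∧ w x L = 0 ∧
      cost L (w x) ≤ 2 ^ B) → 1 ≤ S.card →
    ∃ n : ℕ, (n : ℝ) ≤ C * (4 * q * B) ∧
      S.card * q ^ (Nat.log q S.card) ≤ n * (q + 1) ^ (Nat.log q S.card) := by
  obtain ⟨c, hc, hLOG⟩ := u_LOG
  refine ⟨Real.exp (2 * c + 4), Real.one_le_exp (by linarith), ?_⟩
  intro L P g B q S w hg hgL hB hq hS hcard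
  have hL : ¬ Bd (S.card - 1) (g L) := by
    intro h
    have h1 := zeros h hgL S (by
      intro x hx
      obtain ⟨h1, h2, _⟩ := hS x hx
      have h3 := val_prog hg h1 L le_rfl
      rwa [h2] at h3)
    omega
  obtain ⟨ι, hι, a, f1, f2, _, f4, f5⟩ := fam hg hq S.card hcard hL
  obtain ⟨n, hn⟩ : ∃ n, n = Fintype.card ι := ⟨_, rfl⟩
  rw [← hn] at f1
  refine ⟨n, ?_, f1⟩
  have hn1 : 1 ≤ n := by
    rcases Nat.eq_zero_or_pos n with h0 | h0
    · rw [h0, zero_mul] at f1
      have h1 : 0 < S.card * q ^ (Nat.log q S.card) := by positivity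
      omega
    · exact h0
  let e : Fin n ≃ ι := (Fintype.equivFinOfCardEq hn.symm).symm
  have hI : Indep fun m : Fin n => mono L g (a (e m)) := by
    intro d hd m
    have h1 := f4 (fun i => d (e.symm i)) (by
      rw [← hd, ← Equiv.sum_comp e]
      refine Finset.sum_congr rfl fun i _ => ?_
      rw [Equiv.symm_apply_apply]) (e m)
    rwa [Equiv.symm_apply_apply] at h1
  have hC : CD (S.card - 1) fun m : Fin n => mono L g (a (e m)) := by
    obtain ⟨Δ, h0, h1⟩ := f5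
    exact ⟨Δ, h0, fun m => h1 (e m)⟩
  obtain ⟨x, hx, hdet⟩ := select (fun m : Fin n => mono L g (a (e m))) hI hC S (by omega)
    (fun y m => ∏ k ∈ Finset.range (L + 1), (w y k) ^ (a (e m) k)) (by
      intro y hy m
      have h3 := val_prog hg (hS y hy).1
      exact Val.prod _ _ _ fun i hi => (h3 i (by omega)).pow _)
  have hdet' := det_ne (Q := 4 * q) (fun m => a (e m)) (fun j => w (x j)) (fun m => f2 (e m)) hdet
  have hvar : ∃ k ≤ L, P k = Instr.var := exists_var hg fun h => hL (h.mono (Nat.zero_le _))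
  have hpad := det_padic (Q := 4 * q) (fun m => a (e m)) x (fun j => w (x j)) P
    (fun m => f2 (e m)) (fun j => (hS _ (hx j)).1) hvar hdet'
  have hbound := det_bound (L := L) (Q := 4 * q) (B := B) (fun m => a (e m)) (fun j => w (x j))
    (fun m => f2 (e m)) (fun j => (hS _ (hx j)).2.2)
  obtain ⟨D, hD⟩ : ∃ D : ℕ, D = (Matrix.of fun j m => ent L (4 * q) (a (e m)) (w (x j))).det.natAbs :=
    ⟨_, rfl⟩
  have hD0 : D ≠ 0 := by
    rw [hD]
    exact Int.natAbs_ne_zero.2 hdet'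
  have h1 := hLOG n B D (fun j => cost L (w (x j))) hn1 hB hD0
    (fun j => ⟨cost_pos _ _, (hS _ (hx j)).2.2⟩) (by
      intro p hp
      rw [hD]
      exact hpad p hp)
  have h2 : Real.log D ≤ n * Real.log n + n * (((4 * q * B : ℕ) : ℝ) * Real.log 2) := by
    have h3 : (D : ℝ) ≤ (n : ℝ) ^ n * (2 ^ (4 * q * B)) ^ n := by
      have h4 : D ≤ n ^ n * (2 ^ (4 * q * B)) ^ n := by
        rw [hD]
        exact hbound.trans (Nat.mul_le_mul_right _ (Nat.factorial_le_pow n))
      exact_mod_cast h4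
    have hD1 : (0 : ℝ) < D := by
      have : 0 < D := Nat.pos_of_ne_zero hD0
      exact_mod_cast this
    have hn0 : (0 : ℝ) < n := by exact_mod_cast hn1
    have h4 := Real.log_le_log hD1 h3
    rw [Real.log_mul (by positivity) (by positivity), Real.log_pow, Real.log_pow, Real.log_pow] at h4
    exact h4
  have h3 := num1 hc (R := 4 * q * B) hn1 hB (by
    refine Nat.le_mul_of_pos_left _ (by omega)) (h1.trans h2)
  refine h3.trans (le_of_eq ?_)
  push_cast
  ring

/-- The main theorem. -/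
theorem main : ∃ K : ℕ, ∀ (L : ℕ) (P : ℕ → Instr) (g : ℕ → RatFunc ℚ) (B q : ℕ)
    (S : Finset ℚ) (w : ℚ → ℕ → ℚ),
    (∀ k ≤ L, Step (fun a => RatFunc.C a) RatFunc.X g k (P k)) → g L ≠ 0 →
    1 ≤ B → 1 ≤ q → B ≤ q ^ q →
    (∀ x ∈ S, (∀ k ≤ L, Step (fun a => a) x (w x) k (P k)) ∧ w x L = 0 ∧
      cost L (w x) ≤ 2 ^ B) → S.card ≤ K * (q * B) := by
  obtain ⟨C, hC1, hC⟩ := core
  obtain ⟨A, hA⟩ : ∃ A : ℝ, A = 4 * C * Real.exp (3 / 2 * (Real.log (4 * C) + 2)) := ⟨_, rfl⟩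
  have hA0 : 0 ≤ A := by
    rw [hA]
    positivity
  refine ⟨3 * ⌈A⌉₊, ?_⟩
  intro L P g B q S w hg hgL hB hq hBq hS
  rcases Nat.eq_zero_or_pos S.card with h0 | hcard
  · rw [h0]
    exact Nat.zero_le _
  obtain ⟨n, h1, h2⟩ := hC L P g B (q + 2) S w hg hgL hB (by omega) hS hcard
  have h3 : B ≤ (q + 2) ^ (q + 2) :=
    hBq.trans ((Nat.pow_le_pow_left (by omega) q).trans (Nat.pow_le_pow_right (by omega) (by omega)))
  have h4 := num2 hC1 (q := q + 2) (B := B) (n := n) hcard (by omega) hB h3 h1 h2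
  rw [← hA] at h4
  have h5 : (S.card : ℝ) ≤ ((3 * ⌈A⌉₊ * (q * B) : ℕ) : ℝ) := by
    refine h4.trans ?_
    push_cast
    have h6 : A ≤ ⌈A⌉₊ := Nat.le_ceil A
    have h7 : ((q : ℝ) + 2) ≤ 3 * q := by
      have : (1 : ℝ) ≤ q := by exact_mod_cast hq
      linarith
    have h8 : ((q : ℝ) + 2) * B ≤ (3 * q) * B := mul_le_mul_of_nonneg_right h7 (Nat.cast_nonneg _)
    calc A * (((q : ℝ) + 2) * B) ≤ ⌈A⌉₊ * ((3 * q) * B) :=
          mul_le_mul h6 h8 (by positivity) (Nat.cast_nonneg _)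
      _ = _ := by ring
  exact_mod_cast h5

end Pool.Agent.TH777.LC
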