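import Pool.Agent.TH777.LC.Fam
import Pool.Agent.H537R6.U_PAD
import Pool.Agent.H537R6.U_VDM
import Pool.Agent.H537R6.U_LOG

set_option autoImplicit false

/-!
# The integer matrix
-/

namespace Pool.Agent.TH777.LC

open Polynomial

/-- the cost of a list of rational numbers -/
def cost (L : ℕ) (w : ℕ → ℚ) : ℕ := ∏ k ∈ Finset.range (L + 1), (w k).den * max 1 (w k).num.natAbs

theorem cost_pos (L : ℕ) (w : ℕ → ℚ) : 1 ≤ cost L w := by
  refine Nat.one_le_iff_ne_zero.2 (Finset.prod_ne_zero_iff.2 fun k _ => ?_)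
  exact mul_ne_zero (Rat.den_nz _) (by omega)

theorem den_dvd_cost {L : ℕ} (w : ℕ → ℚ) {k : ℕ} (hk : k ≤ L) : (w k).den ∣ cost L w :=
  (Dvd.intro _ rfl).trans (Finset.dvd_prod_of_mem _ (Finset.mem_range.2 (by omega)))

theorem num_dvd_cost {L : ℕ} (w : ℕ → ℚ) {k : ℕ} (hk : k ≤ L) (h : w k ≠ 0) :
    (w k).num.natAbs ∣ cost L w := by
  have h1 : max 1 (w k).num.natAbs = (w k).num.natAbs := by
    have h2 : (w k).num.natAbs ≠ 0 := by
      rw [Int.natAbs_ne_zero, Rat.num_ne_zero]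
      exact h
    omega
  have h3 : (w k).den * max 1 (w k).num.natAbs ∣ cost L w :=
    Finset.dvd_prod_of_mem (fun k => (w k).den * max 1 (w k).num.natAbs)
      (Finset.mem_range.2 (by omega))
  rw [h1] at h3
  exact (Dvd.intro_left _ rfl).trans h3

/-- the entries of the matrix -/
def ent (L Q : ℕ) (a : ℕ → ℕ) (w : ℕ → ℚ) : ℤ :=
  ∏ k ∈ Finset.range (L + 1), (((w k).den : ℤ) ^ (Q - a k) * (w k).num ^ (a k))

theorem ent_eq {L Q : ℕ} (a : ℕ → ℕ) (w : ℕ → ℚ) (ha : ∀ k, a k ≤ Q) :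
    (ent L Q a w : ℚ) = (∏ k ∈ Finset.range (L + 1), ((w k).den : ℚ) ^ Q) *
      ∏ k ∈ Finset.range (L + 1), (w k) ^ (a k) := by
  rw [ent]
  push_cast
  rw [← Finset.prod_mul_distrib]
  refine Finset.prod_congr rfl fun i _ => ?_
  have h1 : ((w i).num : ℚ) = (w i).den * w i := by rw [Rat.den_mul_eq_num]
  have h2 : ((w i).den : ℚ) ^ Q = ((w i).den : ℚ) ^ (Q - a i) * ((w i).den : ℚ) ^ (a i) := by
    rw [← pow_add]
    congr 1
    have := ha i
    omega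
  rw [h1, mul_pow, h2]
  ring

theorem ent_le {L Q B : ℕ} {a : ℕ → ℕ} {w : ℕ → ℚ} (ha : ∀ k, a k ≤ Q)
    (hB : cost L w ≤ 2 ^ B) : |ent L Q a w| ≤ ((2 ^ (Q * B) : ℕ) : ℤ) := by
  classical
  have h1 : |ent L Q a w| ≤
      ((∏ k ∈ Finset.range (L + 1), ((w k).den * max 1 (w k).num.natAbs) ^ Q : ℕ) : ℤ) := by
    rw [ent, Finset.abs_prod]
    push_cast
    refine Finset.prod_le_prod (fun i _ => abs_nonneg _) fun i _ => ?_
    rw [abs_mul, abs_pow, abs_pow, mul_pow]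
    have hd : (1 : ℤ) ≤ (w i).den := by
      have := (w i).den_pos
      exact_mod_cast this
    have h2 : |((w i).den : ℤ)| ^ (Q - a i) ≤ ((w i).den : ℤ) ^ Q := by
      rw [abs_of_nonneg (by positivity)]
      exact pow_le_pow_right₀ hd (by omega)
    have h3 : |(w i).num| ^ (a i) ≤ (max 1 |(w i).num|) ^ Q := by
      calc |(w i).num| ^ (a i) ≤ (max 1 |(w i).num|) ^ (a i) :=
            pow_le_pow_left₀ (abs_nonneg _) (le_max_right _ _) _
        _ ≤ _ := pow_le_pow_right₀ (le_max_left _ _) (ha i)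
    exact mul_le_mul h2 h3 (by positivity) (by positivity)
  refine h1.trans ?_
  have h2 : (∏ k ∈ Finset.range (L + 1), ((w k).den * max 1 (w k).num.natAbs) ^ Q) ≤
      2 ^ (Q * B) := by
    rw [Finset.prod_pow, mul_comm Q B, pow_mul]
    exact Nat.pow_le_pow_left hB _
  exact_mod_cast h2

theorem det_bound {L Q B n : ℕ} (a : Fin n → ℕ → ℕ) (W : Fin n → ℕ → ℚ)
    (ha : ∀ m i, a m i ≤ Q) (hB : ∀ j, cost L (W j) ≤ 2 ^ B) :
    (Matrix.of fun j m => ent L Q (a m) (W j)).det.natAbs ≤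
      n.factorial * (2 ^ (Q * B)) ^ n := by
  have h2 := Matrix.det_le (A := Matrix.of fun j m => ent L Q (a m) (W j))
    (abv := (AbsoluteValue.abs : AbsoluteValue ℤ ℤ))
    (x := ((2 ^ (Q * B) : ℕ) : ℤ)) (fun j m => ent_le (ha m) (hB j))
  rw [Fintype.card_fin, nsmul_eq_mul] at h2
  have h3 : ((Matrix.of fun j m => ent L Q (a m) (W j)).det.natAbs : ℤ) ≤
      ((n.factorial * (2 ^ (Q * B)) ^ n : ℕ) : ℤ) := by
    rw [← Int.abs_eq_natAbs]
    push_cast
    push_cast at h2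
    exact h2
  exact_mod_cast h3

theorem det_ne {L Q n : ℕ} (a : Fin n → ℕ → ℕ) (W : Fin n → ℕ → ℚ)
    (ha : ∀ m i, a m i ≤ Q)
    (h : (Matrix.of fun j m => ∏ k ∈ Finset.range (L + 1), (W j k) ^ (a m k)).det ≠ 0) :
    (Matrix.of fun j m => ent L Q (a m) (W j)).det ≠ 0 := by
  intro h0
  have h1 : (((Matrix.of fun j m => ent L Q (a m) (W j)).det : ℤ) : ℚ) =
      (∏ j, ∏ k ∈ Finset.range (L + 1), ((W j k).den : ℚ) ^ Q) *
        (Matrix.of fun j m => ∏ k ∈ Finset.range (L + 1), (W j k) ^ (a m k)).det := by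
    have h2 : (((Matrix.of fun j m => ent L Q (a m) (W j)).det : ℤ) : ℚ) =
      Int.castRingHom ℚ (Matrix.of fun j m => ent L Q (a m) (W j)).det := rfl
    rw [h2, RingHom.map_det, ← Matrix.det_diagonal, ← Matrix.det_mul]
    congr 1
    ext j m
    rw [Matrix.diagonal_mul]
    simp only [RingHom.mapMatrix_apply, Matrix.map_apply, eq_intCast, Matrix.of_apply]
    exact ent_eq (a m) (W j) (ha m)
  rw [h0, Int.cast_zero] at h1
  refine mul_ne_zero ?_ h h1.symm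
  exact Finset.prod_ne_zero_iff.2 fun j _ => Finset.prod_ne_zero_iff.2 fun i _ =>
    pow_ne_zero _ (by exact_mod_cast (W j i).den_nz)

open Pool.Agent.H537R6 in
theorem det_padic {L Q n : ℕ} (a : Fin n → ℕ → ℕ) (x : Fin n → ℚ)
    (W : Fin n → ℕ → ℚ) (P : ℕ → Instr) (ha : ∀ m i, a m i ≤ Q)
    (hW : ∀ j, ∀ k ≤ L, Step (fun a => a) (x j) (W j) k (P k)) (hvar : ∃ k ≤ L, P k = Instr.var)
    (hdet : (Matrix.of fun j m => ent L Q (a m) (W j)).det ≠ 0) (p : ℕ) (hp : p.Prime) :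
    ∑ m ∈ Finset.range (Finset.univ.filter fun j => ¬ p ∣ cost L (W j)).card,
      m.factorial.factorization p ≤
        (Matrix.of fun j m => ent L Q (a m) (W j)).det.natAbs.factorization p := by
  have : Fact p.Prime := ⟨hp⟩
  classical
  obtain ⟨A, hA⟩ : ∃ A : Matrix (Fin n) (Fin n) ℤ, A = Matrix.of fun j m => ent L Q (a m) (W j) :=
    ⟨_, rfl⟩
  rw [← hA] at hdet ⊢
  set J : Finset (Fin n) := Finset.univ.filter fun j => ¬ p ∣ cost L (W j) with hJ
  rcases Nat.eq_zero_or_pos J.card with h0 | hpos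
  · rw [h0]
    simp
  have hgood : ∀ j : {j // j ∈ J}, ¬ p ∣ cost L (W j) := fun j =>
    (Finset.mem_filter.mp (show (j : Fin n) ∈
      Finset.univ.filter (fun j => ¬ p ∣ cost L (W j)) from j.2)).2
  have hd : ∀ j : {j // j ∈ J}, ∀ k ≤ L, ¬ p ∣ (W j k).den := fun j k hk' h1 =>
    hgood j (h1.trans (den_dvd_cost _ hk'))
  have hn : ∀ j : {j // j ∈ J}, ∀ k ≤ L, W j k ≠ 0 → ¬ p ∣ (W j k).num.natAbs :=
    fun j k hk' h0' h1 => hgood j (h1.trans (num_dvd_cost _ hk' h0'))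
  obtain ⟨kv, hkv, hPv⟩ := hvar
  have hξ' : ∀ j : {j // j ∈ J}, ‖((x j : ℚ) : ℚ_[p])‖ ≤ 1 := by
    intro j
    have h1 := hW j kv hkv
    rw [hPv] at h1
    simp only [Step] at h1
    have h2 := norm_le (p := p) (hd j kv hkv)
    rwa [h1] at h2
  obtain ⟨ξ, hξ⟩ : ∃ ξ : {j // j ∈ J} → ℤ_[p], ∀ j, ((ξ j : ℤ_[p]) : ℚ_[p]) = ((x j : ℚ) : ℚ_[p]) :=
    ⟨fun j => ⟨_, hξ' j⟩, fun j => rfl⟩
  have hrep := rep (J := {j // j ∈ J}) (fun j => x j) (fun j => W j) (fun j => hW j) hd hn ξ hξ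
  have hrep' : ∀ i, ∃ H : ℤ_[p][X], i ≤ L →
      ∀ j, ((H.eval (ξ j) : ℤ_[p]) : ℚ_[p]) = ((W j i : ℚ) : ℚ_[p]) := by
    intro i
    by_cases hi : i ≤ L
    · obtain ⟨H, hH⟩ := hrep i hi
      exact ⟨H, fun _ => hH⟩
    · exact ⟨0, fun h => absurd h hi⟩
  choose H hH using hrep'
  have hdiv := U_PAD.detdiv J hpos ξ
    (fun m => ∏ i ∈ Finset.range (L + 1), (H i) ^ (a m i))
    (fun j => ((∏ i ∈ Finset.range (L + 1), ((W j i).den) ^ Q : ℕ) : ℤ_[p]))
    (A.map (Int.castRingHom ℤ_[p])) (by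
      intro j m
      apply PadicInt.ext
      have h1 : ((A j m : ℤ) : ℚ) = (∏ i ∈ Finset.range (L + 1), ((W j i).den : ℚ) ^ Q) *
          ∏ i ∈ Finset.range (L + 1), (W j i) ^ (a m i) := by
        rw [hA, Matrix.of_apply]
        exact ent_eq (a m) (W j) (ha m)
      have h2 : (((A j m : ℤ) : ℚ) : ℚ_[p]) = (((∏ i ∈ Finset.range (L + 1),
          ((W j i).den : ℚ) ^ Q) * ∏ i ∈ Finset.range (L + 1), (W j i) ^ (a m i) : ℚ) :
            ℚ_[p]) := by rw [h1]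
      rw [Matrix.map_apply, eq_intCast, PadicInt.coe_mul, eval_prod]
      push_cast at h2 ⊢
      rw [h2]
      have h4 : ((∏ i ∈ Finset.range (L + 1), (((W j i).den : ℤ_[p])) ^ Q : ℤ_[p]) : ℚ_[p]) =
          ∏ i ∈ Finset.range (L + 1), (((W j i).den : ℚ_[p])) ^ Q := by
        refine (map_prod (PadicInt.Coe.ringHom (p := p)) _ _).trans ?_
        refine Finset.prod_congr rfl fun i _ => ?_
        rw [map_pow, map_natCast]
      have h3 : ((∏ i ∈ Finset.range (L + 1), eval (ξ j) (H i ^ a m i) : ℤ_[p]) : ℚ_[p]) =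
          ∏ i ∈ Finset.range (L + 1), ((eval (ξ j) (H i ^ a m i) : ℤ_[p]) : ℚ_[p]) :=
        map_prod (PadicInt.Coe.ringHom (p := p)) _ _
      rw [h3, h4]
      congr 1
      refine Finset.prod_congr rfl fun i hi => ?_
      have hi' : i ≤ L := by
        have := Finset.mem_range.1 hi
        omega
      rw [eval_pow, PadicInt.coe_pow, hH i hi'])
  have hcast : (A.map (Int.castRingHom ℤ_[p])).det = ((A.det : ℤ) : ℤ_[p]) :=
    ((Int.castRingHom ℤ_[p]).map_det A).symm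
  rw [hcast] at hdiv
  have h1 := (u_VDM p J.card _).trans hdiv
  set F : ℕ := ∏ m ∈ Finset.range J.card, m.factorial with hF
  have hF0 : F ≠ 0 := Finset.prod_ne_zero_iff.mpr (fun m _ => Nat.factorial_ne_zero m)
  have h2 : F.factorization p = ∑ m ∈ Finset.range J.card, m.factorial.factorization p := by
    rw [hF, Nat.factorization_prod (fun m _ => Nat.factorial_ne_zero m), Finsupp.finsetSum_apply]
  rw [← h2]
  have h3 : p ^ (F.factorization p) ∣ F := Nat.ordProj_dvd F p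
  have h4 : ((p : ℤ_[p]) ^ (F.factorization p)) ∣ ((A.det : ℤ) : ℤ_[p]) := by
    have h5 : ((p ^ (F.factorization p) : ℕ) : ℤ_[p]) ∣ ((F : ℕ) : ℤ_[p]) := Nat.cast_dvd_cast h3
    rw [Nat.cast_pow] at h5
    exact h5.trans h1
  rw [PadicInt.pow_p_dvd_int_iff] at h4
  have h5 : p ^ (F.factorization p) ∣ A.det.natAbs := by
    rw [← Int.natCast_dvd]
    exact_mod_cast h4
  exact (hp.pow_dvd_iff_le_factorization (Int.natAbs_ne_zero.mpr hdet)).mp h5

end Pool.Agent.TH777.LC
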